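import Pool.Agent.X119.CC.Stm

/-! `S_GP`. -/

namespace Pool.Agent.X302.CC

open Polynomial Filter Topology Pool.Agent.X119.CC

theorem eval_cyc {p : ℕ} (hp : p.Prime) (x : ℝ) :
    (cyclotomic p ℝ).eval x = ∑ i ∈ Finset.range p, x ^ i := by
  have := Fact.mk hp
  rw [cyclotomic_prime, eval_finsetSum]
  simp

theorem eval_der {p : ℕ} (hp : p.Prime) (x : ℝ) :
    (derivative (cyclotomic p ℝ)).eval x = ∑ i ∈ Finset.range p, (i : ℝ) * x ^ (i - 1) := by
  have := Fact.mk hp
  rw [cyclotomic_prime, derivative_sum, eval_finsetSum]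
  refine Finset.sum_congr rfl fun i _ => ?_
  rw [derivative_X_pow, eval_mul, eval_C, eval_pow, eval_X]

theorem one_le_cyc {p : ℕ} (hp : p.Prime) {x : ℝ} (hx : 0 ≤ x) :
    1 ≤ (cyclotomic p ℝ).eval x := by
  rw [eval_cyc hp]
  calc (1 : ℝ) = x ^ 0 := by simp
    _ ≤ _ := Finset.single_le_sum (f := fun i => x ^ i) (fun i _ => pow_nonneg hx i)
        (Finset.mem_range.2 hp.pos)

theorem der_pos {p : ℕ} (hp : p.Prime) {x : ℝ} (hx : 0 ≤ x) :
    1 ≤ (derivative (cyclotomic p ℝ)).eval x := by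
  rw [eval_der hp]
  calc (1 : ℝ) = ((1 : ℕ) : ℝ) * x ^ (1 - 1) := by simp
    _ ≤ _ := Finset.single_le_sum (f := fun i : ℕ => (i : ℝ) * x ^ (i - 1))
        (fun i _ => mul_nonneg (Nat.cast_nonneg _) (pow_nonneg hx _))
        (Finset.mem_range.2 hp.one_lt)

theorem der_le {p : ℕ} (hp : p.Prime) {x : ℝ} (hx : 0 ≤ x) (hx1 : x ≤ 1) :
    (derivative (cyclotomic p ℝ)).eval x ≤ (p : ℝ) * p := by
  rw [eval_der hp]
  calc _ ≤ ∑ _i ∈ Finset.range p, (p : ℝ) := by
        refine Finset.sum_le_sum fun i hi => ?_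
        have h1 : (i : ℝ) ≤ p := by exact_mod_cast (Finset.mem_range.1 hi).le
        have h2 : x ^ (i - 1) ≤ 1 := pow_le_one₀ hx hx1
        calc (i : ℝ) * x ^ (i - 1) ≤ i * 1 := mul_le_mul_of_nonneg_left h2 (Nat.cast_nonneg _)
          _ ≤ p := by rw [mul_one]; exact h1
    _ = _ := by simp

theorem gg_pos {p : ℕ} (hp : p.Prime) (u : ℝ) : 0 < gg p 1 u := by
  unfold gg
  have hx : 0 ≤ 1 * Real.exp (-Real.exp u) := by positivity
  have h1 := one_le_cyc hp hx
  have h2 := der_pos hp hx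
  have h3 : 0 < (derivative (cyclotomic p ℝ)).eval (1 * Real.exp (-Real.exp u)) := by linarith
  have h4 : 0 < (cyclotomic p ℝ).eval (1 * Real.exp (-Real.exp u)) := by linarith
  positivity

theorem gg_le {p : ℕ} (hp : p.Prime) (u : ℝ) :
    gg p 1 u ≤ (p : ℝ) * p * (Real.exp u * Real.exp (-Real.exp u)) := by
  unfold gg
  have hx : 0 ≤ 1 * Real.exp (-Real.exp u) := by positivity
  have hx1 : 1 * Real.exp (-Real.exp u) ≤ 1 := by
    rw [one_mul, Real.exp_le_one_iff]
    have := Real.exp_pos u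
    linarith
  have h1 := one_le_cyc hp hx
  have h2 := der_pos hp hx
  have h3 := der_le hp hx hx1
  have h4 : (derivative (cyclotomic p ℝ)).eval (1 * Real.exp (-Real.exp u)) /
      (cyclotomic p ℝ).eval (1 * Real.exp (-Real.exp u)) ≤ (p : ℝ) * p :=
    (div_le_self (by linarith) h1).trans h3
  rw [one_mul] at h4 ⊢
  calc _ ≤ Real.exp u * Real.exp (-Real.exp u) * ((p : ℝ) * p) :=
        mul_le_mul_of_nonneg_left h4 (by positivity)
    _ = _ := by ring

theorem gg_cont {p : ℕ} (hp : p.Prime) : Continuous (gg p 1) := by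
  unfold gg
  have hc : Continuous fun u : ℝ => 1 * Real.exp (-Real.exp u) := by fun_prop
  refine Continuous.mul (by fun_prop) (Continuous.div ?_ ?_ fun u => ?_)
  · exact (derivative (cyclotomic p ℝ)).continuous.comp hc
  · exact (cyclotomic p ℝ).continuous.comp hc
  · have := one_le_cyc hp (x := 1 * Real.exp (-Real.exp u)) (by positivity)
    linarith

theorem t_GP : S_GP := by
  intro p hp _
  refine ⟨gg_pos hp, gg_cont hp, ?_, ?_⟩
  · have h1 : Tendsto (fun t : ℝ => t ^ 1 * Real.exp (-t)) atTop (𝓝 0) :=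
      Real.tendsto_pow_mul_exp_neg_atTop_nhds_zero 1
    have h2 := (h1.comp Real.tendsto_exp_atTop).const_mul ((p : ℝ) * p)
    rw [mul_zero] at h2
    refine squeeze_zero (fun u => (gg_pos hp u).le) (fun u => ?_) h2
    have := gg_le hp u
    simpa [Function.comp] using this
  · have h2 := Real.tendsto_exp_atBot.const_mul ((p : ℝ) * p)
    rw [mul_zero] at h2
    refine squeeze_zero (fun u => (gg_pos hp u).le) (fun u => ?_) h2
    refine (gg_le hp u).trans ?_
    have h3 : Real.exp (-Real.exp u) ≤ 1 := by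
      rw [Real.exp_le_one_iff]
      have := Real.exp_pos u
      linarith
    refine mul_le_mul_of_nonneg_left ?_ (by positivity)
    exact mul_le_of_le_one_right (Real.exp_pos u).le h3

end Pool.Agent.X302.CC
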